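import Mathlib

open TopologicalSpace Set Filter Topology

namespace Pool.Agent.N702.Fan

noncomputable section

abbrev K2 := NonemptyCompacts (ℝ × ℝ)

/-- the unit interval as a nonempty compact set -/
def I01 : NonemptyCompacts ℝ := ⟨⟨Icc 0 1, isCompact_Icc⟩, ⟨0, by simp⟩⟩

lemma mem_I01 {s : ℝ} : s ∈ (I01 : Set ℝ) ↔ 0 ≤ s ∧ s ≤ 1 := Iff.rfl

/-- infimum of `f` over a set -/
def inff {X : Type*} (f : X → ℝ) (A : Set X) : ℝ := sInf (f '' A)

section inff
variable {X : Type*} [TopologicalSpace X]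

lemma inff_mem {f : X → ℝ} {A : NonemptyCompacts X} (hf : ContinuousOn f A) :
    ∃ a ∈ (A : Set X), f a = inff f A := by
  have h1 : IsCompact (f '' (A : Set X)) := A.isCompact.image_of_continuousOn hf
  have h2 : (f '' (A : Set X)).Nonempty := A.nonempty.image f
  obtain ⟨a, ha, h⟩ := h1.sInf_mem h2
  exact ⟨a, ha, h⟩

lemma inff_le {f : X → ℝ} {A : NonemptyCompacts X} (hf : ContinuousOn f A) {a : X}
    (ha : a ∈ (A : Set X)) : inff f A ≤ f a := by
  have h1 : IsCompact (f '' (A : Set X)) := A.isCompact.image_of_continuousOn hf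
  exact csInf_le h1.bddBelow ⟨a, ha, rfl⟩

lemma continuousAt_inff {f : X → ℝ} {W : Set X} (hW : IsOpen W) (hf : ContinuousOn f W)
    {A : NonemptyCompacts X} (hA : (A : Set X) ⊆ W) :
    ContinuousAt (fun B : NonemptyCompacts X => inff f B) A := by
  have hfA : ContinuousOn f A := hf.mono hA
  have hev : ∀ᶠ B : NonemptyCompacts X in 𝓝 A, (B : Set X) ⊆ W :=
    (NonemptyCompacts.isOpen_subsets_of_isOpen hW).mem_nhds hA
  rw [ContinuousAt, tendsto_order]
  constructor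
  · intro c hc
    have hop : IsOpen (W ∩ f ⁻¹' Ioi c) := hf.isOpen_inter_preimage hW isOpen_Ioi
    have hsub : (A : Set X) ⊆ W ∩ f ⁻¹' Ioi c := fun a ha =>
      ⟨hA ha, lt_of_lt_of_le hc (inff_le hfA ha)⟩
    have := (NonemptyCompacts.isOpen_subsets_of_isOpen hop).mem_nhds hsub
    filter_upwards [this, hev] with B hB hBW
    obtain ⟨b, hb, hb'⟩ := inff_mem (hf.mono hBW)
    rw [← hb']
    exact (hB hb).2
  · intro c hc
    have hop : IsOpen (W ∩ f ⁻¹' Iio c) := hf.isOpen_inter_preimage hW isOpen_Iio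
    obtain ⟨a, ha, ha'⟩ := inff_mem hfA
    have hne : ((A : Set X) ∩ (W ∩ f ⁻¹' Iio c)).Nonempty :=
      ⟨a, ha, hA ha, by simpa [ha'] using hc⟩
    have := (NonemptyCompacts.isOpen_inter_nonempty_of_isOpen hop).mem_nhds hne
    filter_upwards [this, hev] with B hB hBW
    obtain ⟨b, hb, hb'⟩ := hB
    exact lt_of_le_of_lt (inff_le (hf.mono hBW) hb) hb'.2

lemma continuous_inff {f : X → ℝ} (hf : Continuous f) :
    Continuous (fun B : NonemptyCompacts X => inff f B) :=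
  continuous_iff_continuousAt.mpr fun _ =>
    continuousAt_inff isOpen_univ hf.continuousOn (subset_univ _)

end inff

/-- the segment on the leg with slope `k` between heights `a` and `b` -/
def seg (k a b : ℝ) : K2 :=
  I01.map (fun s => ((a + s * (b - a)) * k, a + s * (b - a))) (by fun_prop)

/-- the set of all `τ • p` with `p ∈ A` and `0 ≤ τ ≤ lam` -/
def scl (lam : ℝ) (A : K2) : K2 :=
  (I01 ×ˢ A).map (fun q : ℝ × ℝ × ℝ => (q.1 * lam * q.2.1, q.1 * lam * q.2.2)) (by fun_prop)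

lemma continuous_seg : Continuous (fun p : ℝ × ℝ × ℝ => seg p.1 p.2.1 p.2.2) := by
  unfold seg
  exact Continuous.nonemptyCompacts_map'
    (f := fun _ : ℝ × ℝ × ℝ => I01)
    (g := fun (p : ℝ × ℝ × ℝ) (s : ℝ) =>
      ((p.2.1 + s * (p.2.2 - p.2.1)) * p.1, p.2.1 + s * (p.2.2 - p.2.1)))
    continuous_const (by unfold Function.uncurry; fun_prop)

lemma continuous_scl : Continuous (fun p : ℝ × K2 => scl p.1 p.2) := by
  unfold scl
  exact Continuous.nonemptyCompacts_map'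
    (f := fun p : ℝ × K2 => I01 ×ˢ p.2)
    (g := fun (p : ℝ × K2) (q : ℝ × ℝ × ℝ) => (q.1 * p.1 * q.2.1, q.1 * p.1 * q.2.2))
    (by fun_prop) (by unfold Function.uncurry; fun_prop)

lemma mem_seg {k a b : ℝ} (hab : a ≤ b) {p : ℝ × ℝ} :
    p ∈ (seg k a b : Set (ℝ × ℝ)) ↔ ∃ s, a ≤ s ∧ s ≤ b ∧ p = (s * k, s) := by
  constructor
  · rintro ⟨s, hs, rfl⟩
    obtain ⟨h0, h1⟩ := mem_I01.mp hs
    exact ⟨a + s * (b - a), by nlinarith, by nlinarith, rfl⟩
  · rintro ⟨s, h0, h1, rfl⟩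
    rcases hab.eq_or_lt with h | h
    · refine ⟨0, mem_I01.mpr (by norm_num), ?_⟩
      have : s = a := by linarith
      simp [this]
    · refine ⟨(s - a) / (b - a), mem_I01.mpr ⟨by apply div_nonneg <;> linarith, ?_⟩, ?_⟩
      · rw [div_le_one (by linarith)]; linarith
      · have : (s - a) / (b - a) * (b - a) = s - a := div_mul_cancel₀ _ (by linarith)
        simp [this]

lemma mem_scl {lam : ℝ} (hl : 0 ≤ lam) {A : K2} {p : ℝ × ℝ} :
    p ∈ (scl lam A : Set (ℝ × ℝ)) ↔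
      ∃ τ, 0 ≤ τ ∧ τ ≤ lam ∧ ∃ q ∈ (A : Set (ℝ × ℝ)), p = (τ * q.1, τ * q.2) := by
  constructor
  · rintro ⟨⟨s, q⟩, hs, rfl⟩
    obtain ⟨hs, hq⟩ := hs
    obtain ⟨h0, h1⟩ := mem_I01.mp hs
    exact ⟨s * lam, by positivity, by nlinarith, q, hq, rfl⟩
  · rintro ⟨τ, h0, h1, q, hq, rfl⟩
    rcases hl.eq_or_lt with h | h
    · have : τ = 0 := by linarith
      refine ⟨(0, q), ⟨mem_I01.mpr (by norm_num), hq⟩, ?_⟩
      simp [this]
    · refine ⟨(τ / lam, q), ⟨mem_I01.mpr ⟨by positivity, ?_⟩, hq⟩, ?_⟩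
      · rw [div_le_one h]; exact h1
      · have : τ / lam * lam = τ := div_mul_cancel₀ _ h.ne'
        simp [this]

/-- the path from the segment `[l,h]` on leg `k` to the star hull of `A` -/
def GG (k l h φ : ℝ) (A : K2) : K2 :=
  if 3 * φ ≤ 1 then seg k ((1 - 3 * φ) * l) h
  else seg k 0 (min 1 (3 - 3 * φ) * h) ⊔ scl (min 1 (3 * φ - 1)) A

lemma zero_mem_seg (k h : ℝ) : ((0 : ℝ), (0 : ℝ)) ∈ (seg k 0 h : Set (ℝ × ℝ)) :=
  ⟨0, mem_I01.mpr (by norm_num), by simp⟩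

lemma seg_sup_scl_zero (k h : ℝ) (A : K2) :
    seg k 0 h ⊔ scl 0 A = seg k 0 h := by
  apply sup_eq_left.mpr
  intro p hp
  have hp' := (mem_scl le_rfl).mp hp
  obtain ⟨τ, h0, h1, q, hq, rfl⟩ := hp'
  have : τ = 0 := le_antisymm h1 h0
  subst this
  simpa using zero_mem_seg k h

lemma continuous_GG :
    Continuous (fun x : ℝ × ℝ × ℝ × ℝ × K2 => GG x.1 x.2.1 x.2.2.1 x.2.2.2.1 x.2.2.2.2) := by
  unfold GG
  apply Continuous.if_le
  · exact continuous_seg.comp (by fun_prop :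
      Continuous (fun x : ℝ × ℝ × ℝ × ℝ × K2 =>
        (x.1, (1 - 3 * x.2.2.2.1) * x.2.1, x.2.2.1)))
  · refine Continuous.sup ?_ ?_
    · exact continuous_seg.comp (by fun_prop :
        Continuous (fun x : ℝ × ℝ × ℝ × ℝ × K2 =>
          (x.1, (0 : ℝ), min 1 (3 - 3 * x.2.2.2.1) * x.2.2.1)))
    · exact continuous_scl.comp (by fun_prop :
        Continuous (fun x : ℝ × ℝ × ℝ × ℝ × K2 =>
          (min 1 (3 * x.2.2.2.1 - 1), x.2.2.2.2)))
  · fun_prop
  · fun_prop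
  · intro x hx
    have h1 : (1 - 3 * x.2.2.2.1) = 0 := by linarith
    have h2 : min 1 (3 - 3 * x.2.2.2.1) = 1 := by
      rw [min_eq_left]; linarith
    have h3 : min 1 (3 * x.2.2.2.1 - 1) = 0 := by
      rw [hx]; simp
    rw [h1, h2, h3, zero_mul, one_mul, seg_sup_scl_zero]

/-- lowest height -/
def lo (A : K2) : ℝ := inff (fun p : ℝ × ℝ => p.2) (A : Set (ℝ × ℝ))
/-- highest height -/
def hi (A : K2) : ℝ := - inff (fun p : ℝ × ℝ => - p.2) (A : Set (ℝ × ℝ))
/-- smallest slope -/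
def kap (A : K2) : ℝ := inff (fun p : ℝ × ℝ => p.1 / p.2) (A : Set (ℝ × ℝ))
/-- width of the set of slopes -/
def wid (A : K2) : ℝ := - inff (fun p : ℝ × ℝ => - (p.1 / p.2)) (A : Set (ℝ × ℝ)) - kap A
def phi (A : K2) : ℝ := min 1 (wid A / lo A)

/-- the retraction -/
def rr (A : K2) : K2 :=
  if lo A = 0 then scl 1 A else GG (kap A) (lo A) (hi A) (phi A) A

lemma continuous_lo : Continuous lo := continuous_inff continuous_snd
lemma continuous_hi : Continuous hi := (continuous_inff continuous_snd.neg).neg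

/-- the fan over the set `E` of slopes -/
def ME (E : Set ℝ) : Set (ℝ × ℝ) := {p | ∃ k ∈ E, ∃ t, 0 ≤ t ∧ t ≤ 1 ∧ p = (t * k, t)}

lemma isOpen_pos : IsOpen {p : ℝ × ℝ | 0 < p.2} := isOpen_lt continuous_const continuous_snd

lemma continuousOn_ratio : ContinuousOn (fun p : ℝ × ℝ => p.1 / p.2) {p : ℝ × ℝ | 0 < p.2} :=
  continuousOn_fst.div continuousOn_snd (fun p hp => ne_of_gt hp)

lemma lo_le {A : K2} {p : ℝ × ℝ} (hp : p ∈ (A : Set (ℝ × ℝ))) : lo A ≤ p.2 :=
  inff_le continuous_snd.continuousOn hp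

lemma le_hi {A : K2} {p : ℝ × ℝ} (hp : p ∈ (A : Set (ℝ × ℝ))) : p.2 ≤ hi A := by
  have := inff_le (A := A) (f := fun p : ℝ × ℝ => - p.2) continuous_snd.neg.continuousOn hp
  unfold hi; linarith

lemma lo_mem (A : K2) : ∃ p ∈ (A : Set (ℝ × ℝ)), p.2 = lo A :=
  inff_mem continuous_snd.continuousOn

lemma hi_mem (A : K2) : ∃ p ∈ (A : Set (ℝ × ℝ)), p.2 = hi A := by
  obtain ⟨p, hp, h⟩ := inff_mem (A := A) (f := fun p : ℝ × ℝ => - p.2)
    continuous_snd.neg.continuousOn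
  exact ⟨p, hp, by unfold hi; linarith⟩

lemma lo_le_hi (A : K2) : lo A ≤ hi A := by
  obtain ⟨p, hp, h⟩ := lo_mem A
  rw [← h]; exact le_hi hp

lemma sub_pos {A : K2} (h : 0 < lo A) : (A : Set (ℝ × ℝ)) ⊆ {p : ℝ × ℝ | 0 < p.2} :=
  fun _ hp => lt_of_lt_of_le h (lo_le hp)

lemma kap_le {A : K2} (h : 0 < lo A) {p : ℝ × ℝ} (hp : p ∈ (A : Set (ℝ × ℝ))) :
    kap A ≤ p.1 / p.2 := inff_le (continuousOn_ratio.mono (sub_pos h)) hp

lemma kap_mem {A : K2} (h : 0 < lo A) : ∃ p ∈ (A : Set (ℝ × ℝ)), p.1 / p.2 = kap A :=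
  inff_mem (continuousOn_ratio.mono (sub_pos h))

lemma le_wid {A : K2} (h : 0 < lo A) {p : ℝ × ℝ} (hp : p ∈ (A : Set (ℝ × ℝ))) :
    p.1 / p.2 - kap A ≤ wid A := by
  have := inff_le (A := A) (f := fun p : ℝ × ℝ => - (p.1 / p.2))
    (continuousOn_ratio.mono (sub_pos h)).neg hp
  unfold wid; linarith

lemma wid_mem {A : K2} (h : 0 < lo A) :
    ∃ p ∈ (A : Set (ℝ × ℝ)), p.1 / p.2 - kap A = wid A := by
  obtain ⟨p, hp, h'⟩ := inff_mem (A := A) (f := fun p : ℝ × ℝ => - (p.1 / p.2))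
    (continuousOn_ratio.mono (sub_pos h)).neg
  exact ⟨p, hp, by unfold wid; linarith⟩

lemma wid_nonneg {A : K2} (h : 0 < lo A) : 0 ≤ wid A := by
  obtain ⟨p, hp, h'⟩ := kap_mem h
  have := le_wid h hp
  linarith

lemma phi_nonneg {A : K2} (h : 0 < lo A) : 0 ≤ phi A :=
  le_min zero_le_one (div_nonneg (wid_nonneg h) h.le)

lemma phi_le (A : K2) : phi A ≤ 1 := min_le_left _ _

lemma continuousAt_kap {A : K2} (h : 0 < lo A) : ContinuousAt kap A :=
  continuousAt_inff isOpen_pos continuousOn_ratio (sub_pos h)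

lemma continuousAt_wid {A : K2} (h : 0 < lo A) : ContinuousAt wid A :=
  (continuousAt_inff isOpen_pos continuousOn_ratio.neg (sub_pos h)).neg.sub (continuousAt_kap h)

lemma continuousAt_phi {A : K2} (h : 0 < lo A) : ContinuousAt phi A :=
  continuousAt_const.min ((continuousAt_wid h).div continuous_lo.continuousAt h.ne')

lemma continuousAt_rr_of_pos {A : K2} (h : 0 < lo A) : ContinuousAt rr A := by
  have hev : ∀ᶠ B in 𝓝 A, rr B = GG (kap B) (lo B) (hi B) (phi B) B := by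
    have : ∀ᶠ B in 𝓝 A, 0 < lo B := continuous_lo.continuousAt.eventually (lt_mem_nhds h)
    filter_upwards [this] with B hB
    simp [rr, hB.ne']
  have hc : ContinuousAt (fun B => GG (kap B) (lo B) (hi B) (phi B) B) A := by
    have h2 : ContinuousAt (fun B : K2 => (kap B, lo B, hi B, phi B, B)) A :=
      (continuousAt_kap h).prodMk (continuous_lo.continuousAt.prodMk
        (continuous_hi.continuousAt.prodMk ((continuousAt_phi h).prodMk continuousAt_id)))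
    exact ContinuousAt.comp (f := fun B : K2 => (kap B, lo B, hi B, phi B, B))
      continuous_GG.continuousAt h2
  exact hc.congr (hev.mono fun _ h => h.symm)

lemma scl_mono {a b : ℝ} (ha : 0 ≤ a) (hab : a ≤ b) (A : K2) :
    (scl a A : Set (ℝ × ℝ)) ⊆ scl b A := by
  intro p hp
  obtain ⟨τ, h0, h1, q, hq, rfl⟩ := (mem_scl ha).mp hp
  exact (mem_scl (ha.trans hab)).mpr ⟨τ, h0, h1.trans hab, q, hq, rfl⟩

section main

variable {E : Set ℝ} (hE : E ⊆ Icc 0 1)

include hE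

lemma eq_of_mem {p : ℝ × ℝ} (hp : p ∈ ME E) (h : 0 < p.2) :
    p.1 / p.2 ∈ E ∧ p = (p.2 * (p.1 / p.2), p.2) := by
  obtain ⟨k, hk, t, h0, h1, rfl⟩ := hp
  simp only at h ⊢
  rw [mul_comm t k, mul_div_assoc, div_self h.ne', mul_one]
  exact ⟨hk, by rw [mul_comm]⟩

lemma height_mem {p : ℝ × ℝ} (hp : p ∈ ME E) : 0 ≤ p.2 ∧ p.2 ≤ 1 := by
  obtain ⟨k, hk, t, h0, h1, rfl⟩ := hp
  exact ⟨h0, h1⟩

lemma lo_nonneg {A : K2} (hA : (A : Set (ℝ × ℝ)) ⊆ ME E) : 0 ≤ lo A := by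
  obtain ⟨p, hp, h⟩ := lo_mem A
  rw [← h]; exact (height_mem hE (hA hp)).1

lemma hi_le {A : K2} (hA : (A : Set (ℝ × ℝ)) ⊆ ME E) : hi A ≤ 1 := by
  obtain ⟨p, hp, h⟩ := hi_mem A
  rw [← h]; exact (height_mem hE (hA hp)).2

lemma kapE {A : K2} (hA : (A : Set (ℝ × ℝ)) ⊆ ME E) (h : 0 < lo A) : kap A ∈ E := by
  obtain ⟨p, hp, h'⟩ := kap_mem h
  rw [← h']
  exact (eq_of_mem hE (hA hp) (sub_pos h hp)).1

lemma seg_sub {k a b : ℝ} (hk : k ∈ E) (ha : 0 ≤ a) (hab : a ≤ b) (hb : b ≤ 1) :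
    (seg k a b : Set (ℝ × ℝ)) ⊆ ME E := by
  intro p hp
  obtain ⟨s, h0, h1, rfl⟩ := (mem_seg hab).mp hp
  exact ⟨k, hk, s, ha.trans h0, h1.trans hb, rfl⟩

lemma scl_sub {lam : ℝ} (h0 : 0 ≤ lam) (h1 : lam ≤ 1) {A : K2}
    (hA : (A : Set (ℝ × ℝ)) ⊆ ME E) : (scl lam A : Set (ℝ × ℝ)) ⊆ ME E := by
  intro p hp
  obtain ⟨τ, h0', h1', q, hq, rfl⟩ := (mem_scl h0).mp hp
  obtain ⟨k, hk, t, ht0, ht1, rfl⟩ := hA hq
  refine ⟨k, hk, τ * t, by positivity, by nlinarith, ?_⟩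
  simp [mul_assoc]

lemma GG_sub {A : K2} (hA : (A : Set (ℝ × ℝ)) ⊆ ME E) (h : 0 < lo A) :
    (GG (kap A) (lo A) (hi A) (phi A) A : Set (ℝ × ℝ)) ⊆ ME E := by
  have hk := kapE hE hA h
  have hφ0 := phi_nonneg h
  have hφ1 := phi_le A
  have hlh := lo_le_hi A
  have hh1 := hi_le hE hA
  unfold GG
  split_ifs with hc
  · apply seg_sub hE hk _ _ hh1
    · apply mul_nonneg _ h.le; linarith
    · nlinarith
  · rw [NonemptyCompacts.coe_sup]
    apply union_subset
    · have hb : min 1 (3 - 3 * phi A) ≤ 1 := min_le_left _ _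
      have hb0 : 0 ≤ min 1 (3 - 3 * phi A) := le_min zero_le_one (by linarith)
      apply seg_sub hE hk le_rfl
      · apply mul_nonneg hb0; linarith
      · nlinarith
    · exact scl_sub hE (le_min zero_le_one (by linarith)) (min_le_left _ _) hA

lemma rr_sub {A : K2} (hA : (A : Set (ℝ × ℝ)) ⊆ ME E) : (rr A : Set (ℝ × ℝ)) ⊆ ME E := by
  unfold rr
  split_ifs with h
  · exact scl_sub hE zero_le_one le_rfl hA
  · exact GG_sub hE hA (lt_of_le_of_ne (lo_nonneg hE hA) (Ne.symm h))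

lemma dist_pair {s k k' d : ℝ} (h0 : 0 ≤ s) (h1 : s ≤ 1) (hk : |k - k'| ≤ d) :
    dist ((s * k, s) : ℝ × ℝ) (s * k', s) ≤ d := by
  have hd : 0 ≤ d := (abs_nonneg _).trans hk
  rw [Prod.dist_eq, dist_self, Real.dist_eq, ← mul_sub, abs_mul, abs_of_nonneg h0]
  apply max_le _ hd
  nlinarith [abs_nonneg (k - k')]

lemma near_a {A : K2} (hA : (A : Set (ℝ × ℝ)) ⊆ ME E) (h : 0 < lo A) (hw : wid A ≤ lo A)
    {p : ℝ × ℝ} (hp : p ∈ (scl 1 A : Set (ℝ × ℝ))) :
    ∃ q ∈ (seg (kap A) 0 (hi A) : Set (ℝ × ℝ)), dist p q ≤ lo A := by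
  obtain ⟨τ, h0, h1, q, hq, rfl⟩ := (mem_scl zero_le_one).mp hp
  obtain ⟨hk, hq'⟩ := eq_of_mem hE (hA hq) (sub_pos h hq)
  have hq2 := height_mem hE (hA hq)
  have h3 := le_wid h hq
  have h4 := kap_le h hq
  have h5 := le_hi hq
  have h6 : 0 ≤ hi A := h.le.trans (lo_le_hi A)
  refine ⟨((τ * q.2) * kap A, τ * q.2), (mem_seg h6).mpr ⟨τ * q.2, ?_, ?_, rfl⟩, ?_⟩
  · exact mul_nonneg h0 hq2.1
  · nlinarith
  · have : (τ * q.1, τ * q.2) = ((τ * q.2) * (q.1 / q.2), τ * q.2) := by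
      ext
      · simp only
        rw [mul_assoc, mul_div_cancel₀ _ (ne_of_gt (sub_pos h hq))]
      · rfl
    rw [this]
    apply dist_pair hE (mul_nonneg h0 hq2.1) (by nlinarith)
    rw [abs_of_nonneg (by linarith)]
    linarith

lemma near_b {A : K2} (hA : (A : Set (ℝ × ℝ)) ⊆ ME E) (h : 0 < lo A) (hw : wid A ≤ lo A)
    {q : ℝ × ℝ} (hq : q ∈ (seg (kap A) 0 (hi A) : Set (ℝ × ℝ))) :
    ∃ p ∈ (scl 1 A : Set (ℝ × ℝ)), dist q p ≤ lo A := by
  have h6 : 0 < hi A := h.trans_le (lo_le_hi A)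
  obtain ⟨s, h0, h1, rfl⟩ := (mem_seg h6.le).mp hq
  obtain ⟨b, hb, hb'⟩ := hi_mem A
  obtain ⟨hk, hq'⟩ := eq_of_mem hE (hA hb) (sub_pos h hb)
  have h3 := le_wid h hb
  have h4 := kap_le h hb
  have h7 := hi_le hE hA
  refine ⟨(s / hi A * b.1, s / hi A * b.2), (mem_scl zero_le_one).mpr
    ⟨s / hi A, by positivity, by rw [div_le_one h6]; exact h1, b, hb, rfl⟩, ?_⟩
  have : (s / hi A * b.1, s / hi A * b.2) = (s * (b.1 / b.2), s) := by
    rw [hb']
    ext
    · simp only; ring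
    · simp only; field_simp
  rw [this]
  apply dist_pair hE h0 (h1.trans h7)
  rw [abs_sub_comm, abs_of_nonneg (by linarith)]
  linarith

lemma near_c {k a b l : ℝ} (hk : k ∈ E) (hab : a ≤ b) (ha0 : 0 ≤ a) (hal : a ≤ l)
    {q : ℝ × ℝ} (hq : q ∈ (seg k 0 b : Set (ℝ × ℝ))) :
    ∃ p ∈ (seg k a b : Set (ℝ × ℝ)), dist q p ≤ l := by
  obtain ⟨s, h0, h1, rfl⟩ := (mem_seg (ha0.trans hab)).mp hq
  have hk' := hE hk
  rcases le_total a s with h | h
  · exact ⟨(s * k, s), (mem_seg hab).mpr ⟨s, h, h1, rfl⟩, by simp; linarith⟩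
  · refine ⟨(a * k, a), (mem_seg hab).mpr ⟨a, le_rfl, hab, rfl⟩, ?_⟩
    rw [Prod.dist_eq, Real.dist_eq, Real.dist_eq, ← sub_mul, abs_mul, abs_of_nonneg hk'.1,
      abs_sub_comm s a, abs_of_nonneg (by linarith : (0 : ℝ) ≤ a - s)]
    have := hk'.2
    have := hk'.1
    apply max_le <;> nlinarith

lemma dist_GG {A : K2} (hA : (A : Set (ℝ × ℝ)) ⊆ ME E) (h : 0 < lo A) (hw : wid A ≤ lo A) :
    dist (GG (kap A) (lo A) (hi A) (phi A) A) (scl 1 A) ≤ 2 * lo A := by
  have hk := kapE hE hA h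
  have hφ0 := phi_nonneg h
  have hφ1 := phi_le A
  have hlh := lo_le_hi A
  have hh1 := hi_le hE hA
  have hh0 : 0 < hi A := h.trans_le hlh
  rw [Metric.NonemptyCompacts.dist_eq]
  have hsub : ∀ {b : ℝ}, b ≤ hi A → 0 ≤ b → ∀ {a : ℝ}, 0 ≤ a → a ≤ b → 
      (seg (kap A) a b : Set (ℝ × ℝ)) ⊆ seg (kap A) 0 (hi A) := by
    intro b hb hb0 a ha hab p hp
    obtain ⟨s, h0, h1, rfl⟩ := (mem_seg hab).mp hp
    exact (mem_seg hh0.le).mpr ⟨s, ha.trans h0, h1.trans hb, rfl⟩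
  apply Metric.hausdorffDist_le_of_mem_dist (by positivity)
  · intro p hp
    unfold GG at hp
    split_ifs at hp with hc
    · have h1 : 0 ≤ (1 - 3 * phi A) * lo A := mul_nonneg (by linarith) h.le
      have h2 : (1 - 3 * phi A) * lo A ≤ hi A := by nlinarith
      obtain ⟨q, hq, hd⟩ := near_b hE hA h hw (hsub le_rfl hh0.le h1 h2 hp)
      exact ⟨q, hq, by linarith⟩
    · rw [NonemptyCompacts.coe_sup] at hp
      rcases hp with hp | hp
      · have hb : min 1 (3 - 3 * phi A) ≤ 1 := min_le_left _ _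
        have hb0 : 0 ≤ min 1 (3 - 3 * phi A) := le_min zero_le_one (by linarith)
        have h1 : 0 ≤ min 1 (3 - 3 * phi A) * hi A := mul_nonneg hb0 hh0.le
        have h2 : min 1 (3 - 3 * phi A) * hi A ≤ hi A := by nlinarith
        obtain ⟨q, hq, hd⟩ := near_b hE hA h hw (hsub h2 h1 le_rfl h1 hp)
        exact ⟨q, hq, by linarith⟩
      · refine ⟨p, scl_mono (le_min zero_le_one (by linarith)) (min_le_left _ _) A hp, ?_⟩
        rw [dist_self]; linarith
  · intro p hp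
    unfold GG
    split_ifs with hc
    · have h1 : 0 ≤ (1 - 3 * phi A) * lo A := mul_nonneg (by linarith) h.le
      have h2 : (1 - 3 * phi A) * lo A ≤ hi A := by nlinarith
      have h3 : (1 - 3 * phi A) * lo A ≤ lo A := by nlinarith
      obtain ⟨q, hq, hd⟩ := near_a hE hA h hw hp
      obtain ⟨q', hq', hd'⟩ := near_c hE hk h2 h1 h3 hq
      exact ⟨q', hq', by linarith [dist_triangle p q q']⟩
    · rw [NonemptyCompacts.coe_sup]
      rcases le_total (3 * phi A) 2 with h2 | h2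
      · have hb : min 1 (3 - 3 * phi A) = 1 := min_eq_left (by linarith)
        obtain ⟨q, hq, hd⟩ := near_a hE hA h hw hp
        refine ⟨q, Or.inl ?_, by linarith⟩
        rw [hb, one_mul]; exact hq
      · have hb : min 1 (3 * phi A - 1) = 1 := min_eq_left (by linarith)
        refine ⟨p, Or.inr ?_, by rw [dist_self]; linarith⟩
        rw [hb]; exact hp

lemma GG_one {A : K2} (h : 0 < lo A) (hφ : phi A = 1) :
    GG (kap A) (lo A) (hi A) (phi A) A = scl 1 A := by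
  have hh0 : 0 < hi A := h.trans_le (lo_le_hi A)
  unfold GG
  rw [if_neg (by rw [hφ]; norm_num), hφ]
  have h1 : min (1 : ℝ) (3 - 3 * 1) = 0 := by norm_num
  have h2 : min (1 : ℝ) (3 * 1 - 1) = 1 := by norm_num
  rw [h1, h2, zero_mul]
  apply sup_eq_right.mpr
  intro p hp
  obtain ⟨s, h0, h1, rfl⟩ := (mem_seg le_rfl).mp hp
  obtain ⟨q, hq⟩ := A.nonempty
  have : s = 0 := le_antisymm h1 h0
  subst this
  exact (mem_scl zero_le_one).mpr ⟨0, le_rfl, zero_le_one, q, hq, by simp⟩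

lemma dist_rr {A : K2} (hA : (A : Set (ℝ × ℝ)) ⊆ ME E) :
    dist (rr A) (scl 1 A) ≤ 2 * lo A := by
  have h0 := lo_nonneg hE hA
  unfold rr
  split_ifs with h
  · rw [dist_self]; linarith
  · have hpos : 0 < lo A := lt_of_le_of_ne h0 (Ne.symm h)
    rcases le_total (wid A) (lo A) with hw | hw
    · exact dist_GG hE hA hpos hw
    · have : phi A = 1 := by
        unfold phi
        apply min_eq_left
        rw [le_div_iff₀ hpos]; linarith
      rw [GG_one hE hpos this, dist_self]; linarith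

/-- subsets of the fan -/
abbrev Sub (E : Set ℝ) := {A : K2 // (A : Set (ℝ × ℝ)) ⊆ ME E}

def rS (A : Sub E) : Sub E := ⟨rr A.1, rr_sub hE A.2⟩

lemma continuous_rS : Continuous (rS hE) := by
  unfold rS
  apply Continuous.subtype_mk
  rw [continuous_iff_continuousAt]
  intro A
  rcases (lo_nonneg hE A.2).eq_or_lt with h | h
  · have hs : Continuous (fun B : Sub E => scl 1 B.1) :=
      continuous_scl.comp (by fun_prop : Continuous (fun B : Sub E => ((1 : ℝ), B.1)))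
    have hl : Continuous (fun B : Sub E => lo B.1) := continuous_lo.comp continuous_subtype_val
    have hr : rr A.1 = scl 1 A.1 := by unfold rr; rw [if_pos h.symm]
    rw [ContinuousAt, hr, tendsto_iff_dist_tendsto_zero]
    have h1 : Tendsto (fun B : Sub E => 2 * lo B.1 + dist (scl 1 B.1) (scl 1 A.1)) (𝓝 A)
        (𝓝 0) := by
      have h2 : Tendsto (fun B : Sub E => 2 * lo B.1) (𝓝 A) (𝓝 0) := by
        have := (hl.tendsto A).const_mul 2
        rwa [← h, mul_zero] at this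
      have h3 : Tendsto (fun B : Sub E => dist (scl 1 B.1) (scl 1 A.1)) (𝓝 A) (𝓝 0) :=
        tendsto_iff_dist_tendsto_zero.mp (hs.tendsto A)
      simpa using h2.add h3
    refine squeeze_zero (fun _ => dist_nonneg) (fun B => ?_) h1
    calc dist (rr B.1) (scl 1 A.1) ≤ dist (rr B.1) (scl 1 B.1) + dist (scl 1 B.1) (scl 1 A.1) :=
          dist_triangle _ _ _
      _ ≤ _ := by gcongr; exact dist_rr hE B.2
  · exact (continuousAt_rr_of_pos h).comp continuous_subtype_val.continuousAt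

lemma conn_seg (k a b : ℝ) : IsConnected (seg k a b : Set (ℝ × ℝ)) := by
  unfold seg
  rw [NonemptyCompacts.coe_map]
  apply IsConnected.image
  · exact isConnected_Icc zero_le_one
  · fun_prop

lemma starConvex_scl {lam : ℝ} (hl : 0 ≤ lam) (A : K2) :
    StarConvex ℝ (0 : ℝ × ℝ) (scl lam A : Set (ℝ × ℝ)) := by
  rw [starConvex_zero_iff]
  intro p hp a ha0 ha1
  obtain ⟨τ, h0, h1, q, hq, rfl⟩ := (mem_scl hl).mp hp
  refine (mem_scl hl).mpr ⟨a * τ, by positivity, by nlinarith, q, hq, ?_⟩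
  simp [mul_assoc]

lemma zero_mem_scl {lam : ℝ} (hl : 0 ≤ lam) (A : K2) : (0 : ℝ × ℝ) ∈ (scl lam A : Set (ℝ × ℝ)) := by
  obtain ⟨q, hq⟩ := A.nonempty
  exact (mem_scl hl).mpr ⟨0, le_rfl, hl, q, hq, by simp; rfl⟩

lemma conn_scl {lam : ℝ} (hl : 0 ≤ lam) (A : K2) : IsConnected (scl lam A : Set (ℝ × ℝ)) :=
  ((starConvex_scl hE hl A).isPathConnected (zero_mem_scl hE hl A)).isConnected

lemma conn_rr {A : K2} (hA : (A : Set (ℝ × ℝ)) ⊆ ME E) : IsConnected (rr A : Set (ℝ × ℝ)) := by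
  unfold rr
  split_ifs with h
  · exact conn_scl hE zero_le_one A
  · have hpos : 0 < lo A := lt_of_le_of_ne (lo_nonneg hE hA) (Ne.symm h)
    have hφ0 := phi_nonneg hpos
    unfold GG
    split_ifs with hc
    · exact conn_seg hE _ _ _
    · rw [NonemptyCompacts.coe_sup]
      refine IsConnected.union ⟨0, zero_mem_seg _ _, zero_mem_scl hE ?_ _⟩ (conn_seg hE _ _ _)
        (conn_scl hE ?_ _) <;>
      exact le_min zero_le_one (by linarith)

variable (hd : Dense Eᶜ)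

include hd

lemma exists_gap {a b : ℝ} (hab : a < b) : ∃ c, a < c ∧ c < b ∧ c ∉ E := by
  obtain ⟨c, hc, h⟩ := hd.exists_mem_open isOpen_Ioo (nonempty_Ioo.mpr hab)
  exact ⟨c, h.1, h.2, hc⟩

lemma rr_id_pos {A : K2} (hA : (A : Set (ℝ × ℝ)) ⊆ ME E) (hc : IsConnected (A : Set (ℝ × ℝ)))
    (h : 0 < lo A) : rr A = A := by
  have hcon : ∀ p ∈ (A : Set (ℝ × ℝ)), p.1 / p.2 = kap A := by
    intro p hp
    by_contra hne
    have hlt : kap A < p.1 / p.2 := lt_of_le_of_ne (kap_le h hp) (Ne.symm hne)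
    have him : IsPreconnected ((fun p : ℝ × ℝ => p.1 / p.2) '' (A : Set (ℝ × ℝ))) :=
      hc.isPreconnected.image _ (continuousOn_ratio.mono (sub_pos h))
    obtain ⟨q, hq, hq'⟩ := kap_mem h
    have hsub := him.Icc_subset ⟨q, hq, hq'⟩ ⟨p, hp, rfl⟩
    obtain ⟨c, h1, h2, h3⟩ := exists_gap hE hd hlt
    obtain ⟨q', hq1, hq2⟩ := hsub ⟨h1.le, h2.le⟩
    simp only at hq2
    rw [← hq2] at h3
    exact h3 (eq_of_mem hE (hA hq1) (sub_pos h hq1)).1
  have hw : wid A = 0 := by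
    obtain ⟨p, hp, hp'⟩ := wid_mem h
    rw [← hp', hcon p hp, sub_self]
  have hφ : phi A = 0 := by
    unfold phi; rw [hw, zero_div]; norm_num
  have hform : ∀ p ∈ (A : Set (ℝ × ℝ)), p = (p.2 * kap A, p.2) := by
    intro p hp
    have h1 := (eq_of_mem hE (hA hp) (sub_pos h hp)).2
    rwa [hcon p hp] at h1
  unfold rr GG
  rw [if_neg h.ne', if_pos (by rw [hφ]; norm_num), hφ, mul_zero, sub_zero, one_mul]
  apply NonemptyCompacts.ext
  ext p
  rw [mem_seg (lo_le_hi A)]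
  constructor
  · rintro ⟨s, h0, h1, rfl⟩
    have him : IsPreconnected ((fun p : ℝ × ℝ => p.2) '' (A : Set (ℝ × ℝ))) :=
      hc.isPreconnected.image _ continuousOn_snd
    obtain ⟨a, ha, ha'⟩ := lo_mem A
    obtain ⟨b, hb, hb'⟩ := hi_mem A
    obtain ⟨q, hq, hq'⟩ := him.Icc_subset ⟨a, ha, ha'⟩ ⟨b, hb, hb'⟩ ⟨h0, h1⟩
    simp only at hq'
    have := hform q hq
    rw [hq'] at this
    rw [← this]
    exact hq
  · intro hp
    exact ⟨p.2, lo_le hp, le_hi hp, hform p hp⟩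

lemma rr_id_zero {A : K2} (hA : (A : Set (ℝ × ℝ)) ⊆ ME E) (hc : IsConnected (A : Set (ℝ × ℝ)))
    (h : lo A = 0) : rr A = A := by
  have h0A : ((0 : ℝ), (0 : ℝ)) ∈ (A : Set (ℝ × ℝ)) := by
    obtain ⟨p, hp, hp'⟩ := lo_mem A
    obtain ⟨k, hk, t, ht0, ht1, rfl⟩ := hA hp
    rw [h] at hp'
    simp only at hp'
    subst hp'
    simpa using hp
  unfold rr
  rw [if_pos h]
  apply NonemptyCompacts.ext
  ext p
  rw [mem_scl zero_le_one]
  constructor
  · rintro ⟨τ, hτ0, hτ1, q, hq, rfl⟩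
    obtain ⟨k, hk, t, ht0, ht1, rfl⟩ := hA hq
    simp only
    rcases hτ0.eq_or_lt with h1 | h1
    · rw [← h1]; simpa using h0A
    rcases hτ1.eq_or_lt with h2 | h2
    · rw [h2]; simpa using hq
    rcases ht0.eq_or_lt with h3 | h3
    · rw [← h3]; simpa using h0A
    by_contra hne
    have hs0 : 0 < τ * t := mul_pos h1 h3
    have hst : τ * t < t := by nlinarith
    have hs1 : τ * t ≤ 1 := by linarith
    obtain ⟨s, rfl⟩ : ∃ s, s = τ * t := ⟨_, rfl⟩
    have hne' : (((τ * t) * k, τ * t) : ℝ × ℝ) ∉ (A : Set (ℝ × ℝ)) := by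
      rwa [mul_assoc]
    obtain ⟨δ, hδ, hball⟩ := Metric.isOpen_iff.mp A.isCompact.isClosed.isOpen_compl _ hne'
    obtain ⟨c, hc1, hc2, hcE⟩ := exists_gap hE hd (sub_lt_self k hδ)
    obtain ⟨d, hd1, hd2, hdE⟩ := exists_gap hE hd (lt_add_of_pos_right k hδ)
    have hU : IsOpen {p : ℝ × ℝ | τ * t < p.2 ∧ c * p.2 < p.1 ∧ p.1 < d * p.2} := by
      exact (isOpen_lt continuous_const continuous_snd).inter
        ((isOpen_lt (continuous_const.mul continuous_snd) continuous_fst).inter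
        (isOpen_lt continuous_fst (continuous_const.mul continuous_snd)))
    have hV : IsOpen {p : ℝ × ℝ | p.2 < τ * t ∨ p.1 < c * p.2 ∨ d * p.2 < p.1} := by
      exact (isOpen_lt continuous_snd continuous_const).union
        ((isOpen_lt continuous_fst (continuous_const.mul continuous_snd)).union
        (isOpen_lt (continuous_const.mul continuous_snd) continuous_fst))
    have hcov : (A : Set (ℝ × ℝ)) ⊆ {p : ℝ × ℝ | τ * t < p.2 ∧ c * p.2 < p.1 ∧ p.1 < d * p.2} ∪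
        {p : ℝ × ℝ | p.2 < τ * t ∨ p.1 < c * p.2 ∨ d * p.2 < p.1} := by
      intro x hx
      obtain ⟨k', hk', t', ht0', ht1', rfl⟩ := hA hx
      have hkc : k' ≠ c := fun e => hcE (e ▸ hk')
      have hkd : k' ≠ d := fun e => hdE (e ▸ hk')
      rcases lt_or_ge t' (τ * t) with h4 | h4
      · exact Or.inr (Or.inl h4)
      have ht' : 0 < t' := hs0.trans_le h4
      rcases lt_or_gt_of_ne hkc with h5 | h5
      · exact Or.inr (Or.inr (Or.inl (by simp only; nlinarith)))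
      rcases lt_or_gt_of_ne hkd with h6 | h6
      swap
      · exact Or.inr (Or.inr (Or.inr (by simp only; nlinarith)))
      rcases h4.eq_or_lt with h7 | h7
      · exfalso
        have : ((t' * k', t') : ℝ × ℝ) ∈ Metric.ball (((τ * t) * k, τ * t) : ℝ × ℝ) δ := by
          rw [Metric.mem_ball, ← h7, Prod.dist_eq, dist_self, Real.dist_eq, ← mul_sub, abs_mul,
            abs_of_pos hs0]
          apply max_lt _ hδ
          have : |k' - k| < δ := by rw [abs_lt]; constructor <;> linarith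
          nlinarith [abs_nonneg (k' - k)]
        exact hball this hx
      · exact Or.inl ⟨h7, by simp only; nlinarith, by simp only; nlinarith⟩
    obtain ⟨x, hx, ⟨a1, a2, a3⟩, hxV⟩ := hc.isPreconnected _ _ hU hV hcov
      ⟨(t * k, t), hq, hst, by simp only; nlinarith, by simp only; nlinarith⟩
      ⟨((0 : ℝ), (0 : ℝ)), h0A, Or.inl hs0⟩
    rcases hxV with b | b | b <;> linarith
  · intro hp
    exact ⟨1, zero_le_one, le_rfl, p, hp, by simp⟩

lemma rr_id {A : K2} (hA : (A : Set (ℝ × ℝ)) ⊆ ME E) (hc : IsConnected (A : Set (ℝ × ℝ))) :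
    rr A = A := by
  rcases (lo_nonneg hE hA).eq_or_lt with h | h
  · exact rr_id_zero hE hd hA hc h.symm
  · exact rr_id_pos hE hd hA hc h

end main

/-- transfer along a closed embedding -/
theorem transfer {E : Set ℝ} (hE : E ⊆ Icc 0 1) (hd : Dense Eᶜ)
    {Q : Type*} [TopologicalSpace Q] [T2Space Q] (j : Q → ℝ × ℝ) (hj : IsClosedEmbedding j)
    (hjE : range j = ME E) :
    ∃ r : NonemptyCompacts Q → NonemptyCompacts Q, Continuous r ∧
      (∀ A, IsConnected (r A : Set Q)) ∧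
      ∀ A : NonemptyCompacts Q, IsConnected (A : Set Q) → r A = A := by
  have hemb := hj.nonemptyCompacts_map
  have hsub : ∀ A : NonemptyCompacts Q, (A.map j hj.continuous : Set (ℝ × ℝ)) ⊆ ME E := by
    intro A
    rw [NonemptyCompacts.coe_map, ← hjE]
    exact image_subset_range _ _
  have hex : ∀ B : K2, (B : Set (ℝ × ℝ)) ⊆ ME E →
      ∃ A : NonemptyCompacts Q, A.map j hj.continuous = B := by
    intro B hB
    refine ⟨⟨⟨j ⁻¹' B, hj.isCompact_preimage B.isCompact⟩, ?_⟩, ?_⟩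
    · obtain ⟨b, hb⟩ := B.nonempty
      obtain ⟨a, rfl⟩ : b ∈ range j := hjE ▸ hB hb
      exact ⟨a, hb⟩
    · apply NonemptyCompacts.ext
      rw [NonemptyCompacts.coe_map]
      exact image_preimage_eq_of_subset (hjE ▸ hB)
  choose g hg using fun A : NonemptyCompacts Q =>
    hex (rr (A.map j hj.continuous)) (rr_sub hE (hsub A))
  refine ⟨g, ?_, ?_, ?_⟩
  · rw [hemb.isEmbedding.continuous_iff]
    have h1 : (NonemptyCompacts.map j hj.continuous) ∘ g =
        fun A => (rS hE ⟨A.map j hj.continuous, hsub A⟩).1 := by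
      funext A
      exact hg A
    rw [h1]
    exact continuous_subtype_val.comp ((continuous_rS hE).comp
      (hemb.continuous.subtype_mk _))
  · intro A
    have h1 := conn_rr hE (hsub A)
    rw [← hg A, NonemptyCompacts.coe_map] at h1
    exact ⟨(g A).nonempty, (hj.isEmbedding.isInducing.isPreconnected_image).mp h1.2⟩
  · intro A hA
    apply hemb.injective
    rw [hg A]
    apply rr_id hE hd (hsub A)
    rw [NonemptyCompacts.coe_map]
    exact hA.image _ hj.continuous.continuousOn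

end

end Pool.Agent.N702.Fan
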